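import Mathlib
import Pool.Agent.Q63.LH.Stm
import Pool.Agent.W785.QR.Ex1

/-!
Project LH (helper63), job S_EX: existence of strong solutions of the Navier-Stokes equations for `H¹`
data by Picard iteration on the Fourier side. Convolutions and the Duhamel integral.
-/

set_option autoImplicit false

open MeasureTheory Set Filter
open scoped ComplexConjugate Topology

namespace Pool.Agent.Q209.LH

open Pool.Agent.W785.QR (E conv sy nl sy_norm sy_meas sy_neg sy_div)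

/-- times clamped to `[0, τ]` -/
noncomputable def cl (τ t : ℝ) : ℝ := max 0 (min t τ)

theorem cl_cont (τ : ℝ) : Continuous (cl τ) := by unfold cl; fun_prop

theorem cl_nonneg (τ t : ℝ) : 0 ≤ cl τ t := le_max_left _ _

theorem cl_mem {τ : ℝ} (hτ : 0 ≤ τ) (t : ℝ) : cl τ t ∈ Icc 0 τ :=
  ⟨cl_nonneg _ _, max_le hτ (min_le_right _ _)⟩

theorem cl_eq {τ t : ℝ} (ht : t ∈ Icc 0 τ) : cl τ t = t := by
  unfold cl
  rw [min_eq_left ht.2, max_eq_right ht.1]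

/-- nonnegative measurable square integrable functions -/
structure LL (P : E → ℝ) : Prop where
  meas : Measurable P
  nonneg : ∀ ξ, 0 ≤ P ξ
  int : Integrable (fun ξ => P ξ ^ 2)

/-- the convolution with weights -/
noncomputable def II (P Q : E → ℝ) (ξ : E) : ℝ :=
  ∫ ζ, P ζ * Q (ξ - ζ) / ((1 + ‖ζ‖) * (1 + ‖ξ - ζ‖))

/-- functions of time and frequency with majorant `P` -/
structure Gd (τ : ℝ) (P : E → ℝ) (f : ℝ → E → ℂ) : Prop where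
  meas : ∀ t, Measurable (f t)
  cont : ∀ ξ, Continuous fun t => f t ξ
  bd : ∀ t ξ, ‖f t ξ‖ * ((1 + ‖ξ‖) * (1 + cl τ t * ‖ξ‖ ^ 2)) ≤ P ξ

variable {τ : ℝ} {P Q P' Q' : E → ℝ} {f g f' g' : ℝ → E → ℂ}

theorem wt_ge (τ t : ℝ) (ξ : E) : 1 ≤ (1 + ‖ξ‖) * (1 + cl τ t * ‖ξ‖ ^ 2) := by
  have h1 : 1 ≤ 1 + ‖ξ‖ := by linarith [norm_nonneg ξ]
  have h2 : 1 ≤ 1 + cl τ t * ‖ξ‖ ^ 2 := by
    have := cl_nonneg τ t
    have := mul_nonneg this (sq_nonneg ‖ξ‖)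
    linarith
  nlinarith

theorem Gd.le (h : Gd τ P f) (t : ℝ) (ξ : E) : ‖f t ξ‖ ≤ P ξ := by
  refine le_trans ?_ (h.bd t ξ)
  have := mul_le_mul_of_nonneg_left (wt_ge τ t ξ) (norm_nonneg (f t ξ))
  linarith

theorem Gd.add (h : Gd τ P f) (h' : Gd τ Q g) :
    Gd τ (fun ξ => P ξ + Q ξ) (fun t ξ => f t ξ + g t ξ) where
  meas t := (h.meas t).add (h'.meas t)
  cont ξ := (h.cont ξ).add (h'.cont ξ)
  bd t ξ := by
    have h0 : 0 ≤ (1 + ‖ξ‖) * (1 + cl τ t * ‖ξ‖ ^ 2) := zero_le_one.trans (wt_ge τ t ξ)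
    calc ‖f t ξ + g t ξ‖ * ((1 + ‖ξ‖) * (1 + cl τ t * ‖ξ‖ ^ 2))
        ≤ (‖f t ξ‖ + ‖g t ξ‖) * ((1 + ‖ξ‖) * (1 + cl τ t * ‖ξ‖ ^ 2)) :=
          mul_le_mul_of_nonneg_right (norm_add_le _ _) h0
      _ ≤ P ξ + Q ξ := by rw [add_mul]; exact add_le_add (h.bd t ξ) (h'.bd t ξ)

theorem Gd.neg (h : Gd τ P f) : Gd τ P (fun t ξ => -f t ξ) where
  meas t := (h.meas t).neg
  cont ξ := (h.cont ξ).neg
  bd t ξ := by rw [norm_neg]; exact h.bd t ξ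

theorem Gd.congr (h : Gd τ P f) (hPQ : ∀ ξ, P ξ = Q ξ) (hfg : ∀ t ξ, f t ξ = g t ξ) : Gd τ Q g := by
  have h1 : P = Q := funext hPQ
  have h2 : f = g := funext fun t => funext fun ξ => hfg t ξ
  rw [← h1, ← h2]; exact h

/-- key inequality for the weights -/
theorem wt_mul (s : ℝ) (hs : 0 ≤ s) (ξ η : E) :
    (1 + ‖η‖) * (1 + ‖ξ - η‖) * ((1 + s * ‖ξ‖ ^ 2) / 2)
      ≤ ((1 + ‖η‖) * (1 + s * ‖η‖ ^ 2)) * ((1 + ‖ξ - η‖) * (1 + s * ‖ξ - η‖ ^ 2)) := by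
  have h1 : ‖ξ‖ ≤ ‖η‖ + ‖ξ - η‖ := by
    have := norm_add_le η (ξ - η)
    simpa using this
  have h2 : ‖ξ‖ ^ 2 ≤ 2 * (‖η‖ ^ 2 + ‖ξ - η‖ ^ 2) := by
    nlinarith [norm_nonneg ξ, norm_nonneg η, norm_nonneg (ξ - η), sq_nonneg (‖η‖ - ‖ξ - η‖)]
  have h3 : (1 + s * ‖ξ‖ ^ 2) / 2 ≤ (1 + s * ‖η‖ ^ 2) * (1 + s * ‖ξ - η‖ ^ 2) := by
    have h4 : 0 ≤ (s * ‖η‖ ^ 2) * (s * ‖ξ - η‖ ^ 2) := by positivity
    have h5 := mul_le_mul_of_nonneg_left h2 hs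
    nlinarith
  have h6 : 0 ≤ (1 + ‖η‖) * (1 + ‖ξ - η‖) := by positivity
  calc _ ≤ (1 + ‖η‖) * (1 + ‖ξ - η‖) * ((1 + s * ‖η‖ ^ 2) * (1 + s * ‖ξ - η‖ ^ 2)) :=
        mul_le_mul_of_nonneg_left h3 h6
    _ = _ := by ring

theorem prod_le (h : Gd τ P f) (h' : Gd τ Q g) (t : ℝ) (ξ η : E) :
    ‖f t η * g t (ξ - η)‖ ≤ 2 / (1 + cl τ t * ‖ξ‖ ^ 2)
      * (P η * Q (ξ - η) / ((1 + ‖η‖) * (1 + ‖ξ - η‖))) := by
  have hs := cl_nonneg τ t
  have h1 := h.bd t η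
  have h2 := h'.bd t (ξ - η)
  have h3 := wt_mul (cl τ t) hs ξ η
  have h4 : 0 < 1 + cl τ t * ‖ξ‖ ^ 2 := by positivity
  have h5 : 0 < (1 + ‖η‖) * (1 + ‖ξ - η‖) := by positivity
  rw [norm_mul]
  have hP : 0 ≤ P η := le_trans (by positivity) h1
  have h6 : (‖f t η‖ * ‖g t (ξ - η)‖) * ((1 + ‖η‖) * (1 + ‖ξ - η‖) * ((1 + cl τ t * ‖ξ‖ ^ 2) / 2))
      ≤ P η * Q (ξ - η) := by
    calc _ ≤ (‖f t η‖ * ‖g t (ξ - η)‖) * (((1 + ‖η‖) * (1 + cl τ t * ‖η‖ ^ 2))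
          * ((1 + ‖ξ - η‖) * (1 + cl τ t * ‖ξ - η‖ ^ 2))) :=
          mul_le_mul_of_nonneg_left h3 (by positivity)
      _ = (‖f t η‖ * ((1 + ‖η‖) * (1 + cl τ t * ‖η‖ ^ 2)))
          * (‖g t (ξ - η)‖ * ((1 + ‖ξ - η‖) * (1 + cl τ t * ‖ξ - η‖ ^ 2))) := by ring
      _ ≤ P η * Q (ξ - η) := mul_le_mul h1 h2 (by positivity) hP
  rw [div_mul_div_comm, le_div_iff₀ (by positivity)]
  nlinarith [h6]

theorem prod_le' (h : Gd τ P f) (h' : Gd τ Q g) (t : ℝ) (ξ η : E) :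
    ‖f t η * g t (ξ - η)‖ ≤ P η * Q (ξ - η) := by
  rw [norm_mul]
  exact mul_le_mul (h.le t η) (h'.le t (ξ - η)) (norm_nonneg _) (le_trans (norm_nonneg _) (h.le t η))

theorem prod_meas (h : Gd τ P f) (h' : Gd τ Q g) (t : ℝ) (ξ : E) :
    Measurable fun η => f t η * g t (ξ - η) :=
  (h.meas t).mul ((h'.meas t).comp (measurable_const.sub measurable_id))

theorem prod_int (h : Gd τ P f) (h' : Gd τ Q g) (hi : ∀ ξ, Integrable fun ζ => P ζ * Q (ξ - ζ))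
    (t : ℝ) (ξ : E) : Integrable fun η => f t η * g t (ξ - η) :=
  (hi ξ).mono' (prod_meas h h' t ξ).aestronglyMeasurable
    (Eventually.of_forall fun η => prod_le' h h' t ξ η)

theorem II_int (hP : LL P) (hQ : LL Q) (hi : ∀ ξ, Integrable fun ζ => P ζ * Q (ξ - ζ)) (ξ : E) :
    Integrable fun ζ => P ζ * Q (ξ - ζ) / ((1 + ‖ζ‖) * (1 + ‖ξ - ζ‖)) := by
  have hm : Measurable fun ζ => P ζ * Q (ξ - ζ) / ((1 + ‖ζ‖) * (1 + ‖ξ - ζ‖)) := by
    have h1 : Measurable fun ζ : E => ξ - ζ := measurable_const.sub measurable_id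
    have h2 : Measurable fun ζ : E => (1 + ‖ζ‖) * (1 + ‖ξ - ζ‖) := by fun_prop
    exact (hP.meas.mul (hQ.meas.comp h1)).div h2
  refine (hi ξ).mono' hm.aestronglyMeasurable (Eventually.of_forall fun ζ => ?_)
  have h1 := hP.nonneg ζ
  have h2 := hQ.nonneg (ξ - ζ)
  have h3 := norm_nonneg ζ
  have h4 := norm_nonneg (ξ - ζ)
  rw [Real.norm_eq_abs, abs_of_nonneg (by positivity)]
  refine div_le_self (by positivity) ?_
  nlinarith [mul_nonneg h3 h4]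

theorem II_nonneg (hP : LL P) (hQ : LL Q) (ξ : E) : 0 ≤ II P Q ξ := by
  refine integral_nonneg fun ζ => ?_
  have h1 := hP.nonneg ζ
  have h2 := hQ.nonneg (ξ - ζ)
  show 0 ≤ P ζ * Q (ξ - ζ) / ((1 + ‖ζ‖) * (1 + ‖ξ - ζ‖))
  positivity

theorem II_meas (hP : LL P) (hQ : LL Q) : Measurable (II P Q) := by
  have h : Measurable (Function.uncurry fun (ξ ζ : E) =>
      P ζ * Q (ξ - ζ) / ((1 + ‖ζ‖) * (1 + ‖ξ - ζ‖))) := by
    have h1 : Measurable fun p : E × E => p.1 - p.2 := measurable_fst.sub measurable_snd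
    have h2 : Measurable fun p : E × E => (1 + ‖p.2‖) * (1 + ‖p.1 - p.2‖) := by fun_prop
    exact ((hP.meas.comp measurable_snd).mul (hQ.meas.comp h1)).div h2
  exact (StronglyMeasurable.integral_prod_right h.stronglyMeasurable).measurable

theorem conv_le (hP : LL P) (hQ : LL Q) (h : Gd τ P f) (h' : Gd τ Q g)
    (hi : ∀ ξ, Integrable fun ζ => P ζ * Q (ξ - ζ)) (t : ℝ) (ξ : E) :
    ‖conv f g t ξ‖ ≤ 2 / (1 + cl τ t * ‖ξ‖ ^ 2) * II P Q ξ := by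
  unfold conv II
  rw [← integral_const_mul]
  refine norm_integral_le_of_norm_le ((II_int hP hQ hi ξ).const_mul _)
    (Eventually.of_forall fun η => prod_le h h' t ξ η)

theorem conv_meas (h : Gd τ P f) (h' : Gd τ Q g) (t : ℝ) : Measurable (conv f g t) := by
  have h : Measurable (Function.uncurry fun (ξ η : E) => f t η * g t (ξ - η)) := by
    have h1 : Measurable fun p : E × E => p.1 - p.2 := measurable_fst.sub measurable_snd
    exact ((h.meas t).comp measurable_snd).mul ((h'.meas t).comp h1)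
  exact (StronglyMeasurable.integral_prod_right h.stronglyMeasurable).measurable

theorem conv_cont (h : Gd τ P f) (h' : Gd τ Q g) (hi : ∀ ξ, Integrable fun ζ => P ζ * Q (ξ - ζ))
    (ξ : E) : Continuous fun t => conv f g t ξ := by
  unfold conv
  refine continuous_of_dominated (bound := fun η => P η * Q (ξ - η))
    (fun t => (prod_meas h h' t ξ).aestronglyMeasurable)
    (fun t => Eventually.of_forall fun η => prod_le' h h' t ξ η) (hi ξ)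
    (Eventually.of_forall fun η => (h.cont η).mul (h'.cont (ξ - η)))

/-- the bilinear version of the nonlinear term -/
noncomputable def nlb (a b : Fin 3 → ℝ → E → ℂ) (j : Fin 3) (t : ℝ) (ξ : E) : ℂ :=
  ∑ k, ∑ l, sy ξ j k l * conv (a k) (b l) t ξ

theorem nlb_self (a : Fin 3 → ℝ → E → ℂ) (j : Fin 3) (t : ℝ) (ξ : E) : nlb a a j t ξ = nl a j t ξ :=
  rfl

theorem sum9_le (F : Fin 3 → Fin 3 → ℂ) (C : ℝ) (h : ∀ k l, ‖F k l‖ ≤ C) :
    ‖∑ k, ∑ l, F k l‖ ≤ 9 * C := by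
  calc ‖∑ k, ∑ l, F k l‖ ≤ ∑ k, ∑ l, ‖F k l‖ :=
        (norm_sum_le _ _).trans (Finset.sum_le_sum fun k _ => norm_sum_le _ _)
    _ ≤ ∑ _k : Fin 3, ∑ _l : Fin 3, C := Finset.sum_le_sum fun k _ => Finset.sum_le_sum fun l _ => h k l
    _ = 9 * C := by simp; ring

section
variable {a b : Fin 3 → ℝ → E → ℂ}

theorem nlb_le (hP : LL P) (hQ : LL Q) (h : ∀ k, Gd τ P (a k)) (h' : ∀ k, Gd τ Q (b k))
    (hi : ∀ ξ, Integrable fun ζ => P ζ * Q (ξ - ζ)) (j : Fin 3) (t : ℝ) (ξ : E) :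
    ‖nlb a b j t ξ‖ ≤ (72 * Real.pi * ‖ξ‖ * II P Q ξ) / (1 + cl τ t * ‖ξ‖ ^ 2) := by
  have hs := cl_nonneg τ t
  have hI := II_nonneg hP hQ ξ
  have h1 : ∀ k l, ‖sy ξ j k l * conv (a k) (b l) t ξ‖
      ≤ 4 * Real.pi * ‖ξ‖ * (2 / (1 + cl τ t * ‖ξ‖ ^ 2) * II P Q ξ) := fun k l => by
    rw [norm_mul]
    exact mul_le_mul (sy_norm ξ j k l) (conv_le hP hQ (h k) (h' l) hi t ξ) (norm_nonneg _)
      (by positivity)
  refine (sum9_le _ _ h1).trans (le_of_eq ?_)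
  have : (1 + cl τ t * ‖ξ‖ ^ 2) ≠ 0 := by positivity
  field_simp
  ring

theorem nlb_meas (h : ∀ k, Gd τ P (a k)) (h' : ∀ k, Gd τ Q (b k)) (j : Fin 3) (t : ℝ) :
    Measurable (nlb a b j t) := by
  unfold nlb
  exact Finset.measurable_sum _ fun k _ => Finset.measurable_sum _ fun l _ =>
    (sy_meas j k l).mul (conv_meas (h k) (h' l) t)

theorem nlb_cont (h : ∀ k, Gd τ P (a k)) (h' : ∀ k, Gd τ Q (b k))
    (hi : ∀ ξ, Integrable fun ζ => P ζ * Q (ξ - ζ)) (j : Fin 3) (ξ : E) :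
    Continuous fun t => nlb a b j t ξ := by
  unfold nlb
  exact continuous_finsetSum _ fun k _ => continuous_finsetSum _ fun l _ =>
    (conv_cont (h k) (h' l) hi ξ).const_mul _

theorem sy_zero (j k l : Fin 3) : sy (0 : E) j k l = 0 := by
  have := sy_norm (0 : E) j k l
  simpa using this

theorem nlb_zero (j : Fin 3) (t : ℝ) : nlb a b j t 0 = 0 := by
  unfold nlb
  simp [sy_zero]

end

end Pool.Agent.Q209.LH
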