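import Mathlib
import Pool.Agent.Q209.LH.Cv

/-!
Project LH, job S_EX: the Duhamel operator.
-/

set_option autoImplicit false

open MeasureTheory Set Filter
open scoped ComplexConjugate Topology

namespace Pool.Agent.Q209.LH

open Pool.Agent.W785.QR (E conv sy nl sy_norm sy_meas sy_neg sy_div)

/-- the Duhamel operator -/
noncomputable def Du (τ : ℝ) (G : ℝ → E → ℂ) (t : ℝ) (ξ : E) : ℂ :=
  ∫ s in (0 : ℝ)..(cl τ t),
    ((Real.exp (-(4 * Real.pi ^ 2 * (cl τ t - s) * ‖ξ‖ ^ 2)) : ℝ) : ℂ) * G s ξ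

variable {τ : ℝ} {G H : ℝ → E → ℂ}

theorem ker_meas (c : ℝ) (hm : ∀ t, Measurable (G t)) (hc : ∀ ξ, Continuous fun t => G t ξ) :
    Measurable (fun p : E × ℝ =>
      ((Real.exp (-(4 * Real.pi ^ 2 * (c - p.2) * ‖p.1‖ ^ 2)) : ℝ) : ℂ) * G p.2 p.1) := by
  have h1 : Measurable (Function.uncurry G) := measurable_uncurry_of_continuous_of_measurable hc hm
  have h2 : Measurable fun p : E × ℝ => G p.2 p.1 := h1.comp measurable_swap
  have h3 : Measurable fun p : E × ℝ => 4 * Real.pi ^ 2 * (c - p.2) * ‖p.1‖ ^ 2 := by fun_prop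
  exact (Complex.measurable_ofReal.comp (Real.measurable_exp.comp h3.neg)).mul h2

theorem Du_meas (hm : ∀ t, Measurable (G t)) (hc : ∀ ξ, Continuous fun t => G t ξ) (t : ℝ) :
    Measurable (Du τ G t) := by
  have h0 := cl_nonneg τ t
  have h1 := ker_meas (cl τ t) hm hc
  have h2 : StronglyMeasurable (fun ξ : E => ∫ s, (fun p : E × ℝ =>
      ((Real.exp (-(4 * Real.pi ^ 2 * (cl τ t - p.2) * ‖p.1‖ ^ 2)) : ℝ) : ℂ) * G p.2 p.1) (ξ, s)
        ∂(volume.restrict (Ioc 0 (cl τ t)))) :=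
    StronglyMeasurable.integral_prod_right' h1.stronglyMeasurable
  have h3 : Du τ G t = fun ξ : E => ∫ s, (fun p : E × ℝ =>
      ((Real.exp (-(4 * Real.pi ^ 2 * (cl τ t - p.2) * ‖p.1‖ ^ 2)) : ℝ) : ℂ) * G p.2 p.1) (ξ, s)
        ∂(volume.restrict (Ioc 0 (cl τ t))) := by
    funext ξ
    unfold Du
    rw [intervalIntegral.integral_of_le h0]
  rw [h3]
  exact h2.measurable

theorem Du_cont (hc : ∀ ξ, Continuous fun t => G t ξ) (ξ : E) : Continuous fun t => Du τ G t ξ := by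
  unfold Du
  have h1 : Continuous (Function.uncurry fun (t : ℝ) (s : ℝ) =>
      ((Real.exp (-(4 * Real.pi ^ 2 * (cl τ t - s) * ‖ξ‖ ^ 2)) : ℝ) : ℂ) * G s ξ) := by
    have h2 : Continuous fun p : ℝ × ℝ => cl τ p.1 := (cl_cont τ).comp continuous_fst
    have h3 : Continuous fun p : ℝ × ℝ => G p.2 ξ := (hc ξ).comp continuous_snd
    have h4 : Continuous fun p : ℝ × ℝ =>
        ((Real.exp (-(4 * Real.pi ^ 2 * (cl τ p.1 - p.2) * ‖ξ‖ ^ 2)) : ℝ) : ℂ) := by fun_prop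
    exact h4.mul h3
  exact intervalIntegral.continuous_parametric_intervalIntegral_of_continuous h1 (cl_cont τ)

theorem Du_int (hc : ∀ ξ, Continuous fun t => G t ξ) (t : ℝ) (ξ : E) (u v : ℝ) :
    IntervalIntegrable (fun s => ((Real.exp (-(4 * Real.pi ^ 2 * (cl τ t - s) * ‖ξ‖ ^ 2)) : ℝ) : ℂ)
      * G s ξ) volume u v := by
  refine Continuous.intervalIntegrable ?_ u v
  exact (by fun_prop : Continuous fun s : ℝ =>
        ((Real.exp (-(4 * Real.pi ^ 2 * (cl τ t - s) * ‖ξ‖ ^ 2)) : ℝ) : ℂ)).mul (hc ξ)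

theorem Du_sub (hc : ∀ ξ, Continuous fun t => G t ξ) (hc' : ∀ ξ, Continuous fun t => H t ξ)
    (t : ℝ) (ξ : E) : Du τ (fun t ξ => G t ξ - H t ξ) t ξ = Du τ G t ξ - Du τ H t ξ := by
  unfold Du
  rw [← intervalIntegral.integral_sub (Du_int hc t ξ _ _) (Du_int hc' t ξ _ _)]
  refine intervalIntegral.integral_congr fun s _ => ?_
  simp only
  ring

theorem Du_add (hc : ∀ ξ, Continuous fun t => G t ξ) (hc' : ∀ ξ, Continuous fun t => H t ξ)
    (t : ℝ) (ξ : E) : Du τ (fun t ξ => G t ξ + H t ξ) t ξ = Du τ G t ξ + Du τ H t ξ := by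
  unfold Du
  rw [← intervalIntegral.integral_add (Du_int hc t ξ _ _) (Du_int hc' t ξ _ _)]
  refine intervalIntegral.integral_congr fun s _ => ?_
  simp only
  ring

/-- the statement of `S_DUH` with the constant -/
def Duh (C : ℝ) : Prop := ∀ (τ r g : ℝ) (G : ℝ → ℂ), 0 < τ → 0 < r → 0 ≤ g →
  Continuous G → (∀ s ∈ Icc 0 τ, ‖G s‖ ≤ g / (1 + s * r)) → ∀ t ∈ Icc 0 τ,
  (1 + t * r) * ‖∫ s in (0 : ℝ)..t, ((Real.exp (-(4 * Real.pi ^ 2 * (t - s) * r)) : ℝ) : ℂ) * G s‖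
    ≤ C * min τ (1 / r) * g

/-- the majorant of the Duhamel term -/
noncomputable def Bk (C τ : ℝ) (P Q : E → ℝ) (ξ : E) : ℝ :=
  (72 * Real.pi * C) * ((1 + ‖ξ‖) * min τ (1 / ‖ξ‖ ^ 2) * ‖ξ‖ * II P Q ξ)

variable {C : ℝ} {P Q : E → ℝ}

theorem Du_good (hC : Duh C) (hτ : 0 < τ) (hm : ∀ t, Measurable (G t))
    (hc : ∀ ξ, Continuous fun t => G t ξ) (hI : ∀ ξ, 0 ≤ II P Q ξ)
    (hb : ∀ t ξ, ‖G t ξ‖ ≤ (72 * Real.pi * ‖ξ‖ * II P Q ξ) / (1 + cl τ t * ‖ξ‖ ^ 2)) :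
    Gd τ (Bk C τ P Q) (Du τ G) where
  meas := Du_meas hm hc
  cont := Du_cont hc
  bd t ξ := by
    by_cases h0 : ξ = 0
    · have h1 : ∀ s, G s ξ = 0 := fun s => by
        have := hb s ξ
        rw [h0] at this ⊢
        simpa using this
      have h2 : Du τ G t ξ = 0 := by
        unfold Du
        simp [h1]
      rw [h2, h0]
      simp [Bk]
    · have hn : 0 < ‖ξ‖ := norm_pos_iff.2 h0
      have h1 := hC τ (‖ξ‖ ^ 2) (72 * Real.pi * ‖ξ‖ * II P Q ξ) (fun s => G s ξ) hτ (by positivity)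
        (by have := hI ξ; positivity) (hc ξ)
        (fun s hs => by have := hb s ξ; rwa [cl_eq hs] at this) (cl τ t) (cl_mem hτ.le t)
      unfold Du Bk
      calc _ = (1 + ‖ξ‖) * ((1 + cl τ t * ‖ξ‖ ^ 2) * ‖∫ s in (0 : ℝ)..(cl τ t),
            ((Real.exp (-(4 * Real.pi ^ 2 * (cl τ t - s) * ‖ξ‖ ^ 2)) : ℝ) : ℂ) * G s ξ‖) := by ring
        _ ≤ (1 + ‖ξ‖) * (C * min τ (1 / ‖ξ‖ ^ 2) * (72 * Real.pi * ‖ξ‖ * II P Q ξ)) :=
            mul_le_mul_of_nonneg_left h1 (by positivity)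
        _ = _ := by ring

end Pool.Agent.Q209.LH
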