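import Mathlib
import Pool.Agent.Q209.LH.Du

/-!
Project LH, job S_EX: norms of the majorants.
-/

set_option autoImplicit false

open MeasureTheory Set Filter
open scoped ComplexConjugate Topology

namespace Pool.Agent.Q209.LH

open Pool.Agent.W785.QR (E conv sy nl sy_norm sy_meas sy_neg sy_div)

/-- nonnegative square integrable functions with norm at most `b` -/
structure El (P : E → ℝ) (b : ℝ) : Prop where
  ll : LL P
  pos : 0 < b
  le : ∫ ξ, P ξ ^ 2 ≤ b ^ 2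

/-- the statement of `S_KER` for one value of the parameters -/
def Ker (ε τ : ℝ) : Prop := ∀ F G : E → ℝ, Measurable F →
  Measurable G → (∀ ξ, 0 ≤ F ξ) → (∀ ξ, 0 ≤ G ξ) → Integrable (fun ξ => F ξ ^ 2) →
  Integrable (fun ξ => G ξ ^ 2) →
  (∀ ξ, Integrable fun ζ => F ζ * G (ξ - ζ)) ∧
  Integrable (fun ξ => ((1 + ‖ξ‖) * min τ (1 / ‖ξ‖ ^ 2) * ‖ξ‖ *
    ∫ ζ, F ζ * G (ξ - ζ) / ((1 + ‖ζ‖) * (1 + ‖ξ - ζ‖))) ^ 2) ∧
  ∫ ξ, ((1 + ‖ξ‖) * min τ (1 / ‖ξ‖ ^ 2) * ‖ξ‖ *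
    ∫ ζ, F ζ * G (ξ - ζ) / ((1 + ‖ζ‖) * (1 + ‖ξ - ζ‖))) ^ 2
    ≤ ε ^ 2 * (∫ ξ, F ξ ^ 2) * ∫ ξ, G ξ ^ 2

variable {ε τ C b c : ℝ} {P Q : E → ℝ}

theorem Ker.hi (h : Ker ε τ) (hP : LL P) (hQ : LL Q) (ξ : E) :
    Integrable fun ζ => P ζ * Q (ξ - ζ) :=
  (h P Q hP.meas hQ.meas hP.nonneg hQ.nonneg hP.int hQ.int).1 ξ

theorem El.mono (h : El P b) (hbc : b ≤ c) : El P c :=
  ⟨h.ll, lt_of_lt_of_le h.pos hbc, h.le.trans (pow_le_pow_left₀ h.pos.le hbc 2)⟩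

theorem sq_add_le {x y b c : ℝ} (hb : 0 < b) (hc : 0 < c) :
    (x + y) ^ 2 ≤ (1 + c / b) * x ^ 2 + (1 + b / c) * y ^ 2 := by
  have h : (1 + c / b) * x ^ 2 + (1 + b / c) * y ^ 2 - (x + y) ^ 2 = (c * x - b * y) ^ 2 / (b * c) := by
    field_simp
    ring
  have h2 : 0 ≤ (c * x - b * y) ^ 2 / (b * c) := by positivity
  linarith

theorem El.add (h : El P b) (h' : El Q c) : El (fun ξ => P ξ + Q ξ) (b + c) where
  ll := by
    have hm : Measurable fun ξ => P ξ + Q ξ := h.ll.meas.add h'.ll.meas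
    refine ⟨hm, fun ξ => add_nonneg (h.ll.nonneg ξ) (h'.ll.nonneg ξ), ?_⟩
    refine ((h.ll.int.const_mul (1 + c / b)).add (h'.ll.int.const_mul (1 + b / c))).mono'
      (hm.pow_const 2).aestronglyMeasurable (Eventually.of_forall fun ξ => ?_)
    rw [Real.norm_eq_abs, abs_of_nonneg (sq_nonneg _)]
    exact sq_add_le h.pos h'.pos
  pos := add_pos h.pos h'.pos
  le := by
    have hb := h.pos
    have hc := h'.pos
    have hi := (h.ll.int.const_mul (1 + c / b)).add (h'.ll.int.const_mul (1 + b / c))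
    calc ∫ ξ, (P ξ + Q ξ) ^ 2 ≤ ∫ ξ, ((1 + c / b) * P ξ ^ 2 + (1 + b / c) * Q ξ ^ 2) :=
          integral_mono_of_nonneg (Eventually.of_forall fun ξ => sq_nonneg _) hi
            (Eventually.of_forall fun ξ => sq_add_le hb hc)
      _ = (1 + c / b) * (∫ ξ, P ξ ^ 2) + (1 + b / c) * ∫ ξ, Q ξ ^ 2 := by
          rw [integral_add (h.ll.int.const_mul (1 + c / b)) (h'.ll.int.const_mul (1 + b / c)),
            integral_const_mul, integral_const_mul]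
      _ ≤ (1 + c / b) * b ^ 2 + (1 + b / c) * c ^ 2 :=
          add_le_add (mul_le_mul_of_nonneg_left h.le (by positivity))
            (mul_le_mul_of_nonneg_left h'.le (by positivity))
      _ = (b + c) ^ 2 := by field_simp; ring

theorem El_zero (hb : 0 < b) : El (fun _ => 0) b :=
  ⟨⟨measurable_const, fun _ => le_rfl, by simp⟩, hb, by simp; positivity⟩

theorem kk_meas (τ : ℝ) : Measurable fun ξ : E => (1 + ‖ξ‖) * min τ (1 / ‖ξ‖ ^ 2) * ‖ξ‖ := by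
  have h1 : Measurable fun ξ : E => min τ (1 / ‖ξ‖ ^ 2) :=
    measurable_const.min (measurable_const.div (measurable_norm.pow_const 2))
  exact ((measurable_const.add measurable_norm).mul h1).mul measurable_norm

theorem Ker.El (h : Ker ε τ) (hε : 0 < ε) (hτ : 0 < τ) (hC : 0 < C) (hP : El P b) (hQ : El Q c) :
    El (Bk C τ P Q) (72 * Real.pi * C * (ε * b * c)) where
  ll := by
    refine ⟨?_, fun ξ => ?_, ?_⟩
    · exact ((kk_meas τ).mul (II_meas hP.ll hQ.ll)).const_mul _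
    · unfold Bk
      have h1 := II_nonneg hP.ll hQ.ll ξ
      have h2 : 0 ≤ min τ (1 / ‖ξ‖ ^ 2) := le_min hτ.le (by positivity)
      positivity
    · have h1 := (h P Q hP.ll.meas hQ.ll.meas hP.ll.nonneg hQ.ll.nonneg hP.ll.int hQ.ll.int).2.1
      have h2 := h1.const_mul ((72 * Real.pi * C) ^ 2)
      refine h2.congr (Eventually.of_forall fun ξ => ?_)
      simp only [Bk, II]
      ring
  pos := by
    have := hP.pos
    have := hQ.pos
    positivity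
  le := by
    have hb := hP.pos
    have hc := hQ.pos
    have h1 := (h P Q hP.ll.meas hQ.ll.meas hP.ll.nonneg hQ.ll.nonneg hP.ll.int hQ.ll.int).2.2
    have h2 : (∫ ξ, P ξ ^ 2) * (∫ ξ, Q ξ ^ 2) ≤ b ^ 2 * c ^ 2 :=
      mul_le_mul hP.le hQ.le (integral_nonneg fun _ => sq_nonneg _) (by positivity)
    calc ∫ ξ, Bk C τ P Q ξ ^ 2 = (72 * Real.pi * C) ^ 2 * ∫ ξ, ((1 + ‖ξ‖) * min τ (1 / ‖ξ‖ ^ 2) * ‖ξ‖ *
          ∫ ζ, P ζ * Q (ξ - ζ) / ((1 + ‖ζ‖) * (1 + ‖ξ - ζ‖))) ^ 2 := by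
          rw [← integral_const_mul]
          refine integral_congr_ae (Eventually.of_forall fun ξ => ?_)
          simp only [Bk, II]
          ring
      _ ≤ (72 * Real.pi * C) ^ 2 * (ε ^ 2 * (∫ ξ, P ξ ^ 2) * ∫ ξ, Q ξ ^ 2) :=
          mul_le_mul_of_nonneg_left h1 (by positivity)
      _ = ((72 * Real.pi * C) ^ 2 * ε ^ 2) * ((∫ ξ, P ξ ^ 2) * ∫ ξ, Q ξ ^ 2) := by ring
      _ ≤ ((72 * Real.pi * C) ^ 2 * ε ^ 2) * (b ^ 2 * c ^ 2) :=
          mul_le_mul_of_nonneg_left h2 (by positivity)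
      _ = _ := by ring

end Pool.Agent.Q209.LH
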