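import Mathlib
import Pool.Agent.Q209.LH.El

/-!
Project LH, job S_EX: the iteration.
-/

set_option autoImplicit false

open MeasureTheory Set Filter
open scoped ComplexConjugate Topology

namespace Pool.Agent.Q209.LH

open Pool.Agent.W785.QR (E conv sy nl sy_norm sy_meas sy_neg sy_div)

/-- the iterates -/
noncomputable def it (τ : ℝ) (a0 : Fin 3 → E → ℂ) : ℕ → Fin 3 → ℝ → E → ℂ
  | 0 => fun _ _ _ => 0
  | n + 1 => fun j t ξ => ((Real.exp (-(4 * Real.pi ^ 2 * cl τ t * ‖ξ‖ ^ 2)) : ℝ) : ℂ) * a0 j ξ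
      - Du τ (nl (it τ a0 n) j) t ξ

/-- differences of the iterates -/
noncomputable def dd (τ : ℝ) (a0 : Fin 3 → E → ℂ) (n : ℕ) (j : Fin 3) (t : ℝ) (ξ : E) : ℂ :=
  it τ a0 (n + 1) j t ξ - it τ a0 n j t ξ

/-- majorants of the iterates and of the differences -/
noncomputable def st (C τ : ℝ) (A : E → ℝ) : ℕ → (E → ℝ) × (E → ℝ)
  | 0 => (fun _ => 0, A)
  | n + 1 => (fun ξ => (st C τ A n).1 ξ + (st C τ A n).2 ξ, fun ξ =>
      Bk C τ (st C τ A n).2 (fun ξ => (st C τ A n).1 ξ + (st C τ A n).2 ξ) ξ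
        + Bk C τ (st C τ A n).1 (st C τ A n).2 ξ)

variable {ε τ C d : ℝ} {A : E → ℝ} {a0 : Fin 3 → E → ℂ}

theorem st_el (hK : Ker ε τ) (hε : 0 < ε) (hτ : 0 < τ) (hC : 0 < C) (hA : El A d)
    (hs : 72 * Real.pi * C * (ε * (6 * d)) ≤ 1 / 2) (n : ℕ) :
    El (st C τ A n).1 (d * (3 - 2 * (1 / 2) ^ n)) ∧ El (st C τ A n).2 (d * (1 / 2) ^ n) := by
  have hd := hA.pos
  induction n with
  | zero =>
    refine ⟨?_, ?_⟩
    · have h : El (fun _ => 0) (d * (3 - 2 * (1 / 2) ^ 0)) := El_zero (by norm_num; exact hd)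
      exact h
    · have h : El A (d * (1 / 2) ^ 0) := by simpa using hA
      exact h
  | succ n ih =>
    obtain ⟨h1, h2⟩ := ih
    have h3 : El (st C τ A (n + 1)).1 (d * (3 - 2 * (1 / 2) ^ (n + 1))) := by
      have h4 := h1.add h2
      have h5 : d * (3 - 2 * (1 / 2) ^ n) + d * (1 / 2) ^ n = d * (3 - 2 * (1 / 2) ^ (n + 1)) := by
        rw [pow_succ]; ring
      rw [h5] at h4
      exact h4
    refine ⟨h3, ?_⟩
    have h6 := (hK.El hε hτ hC h2 h3).add (hK.El hε hτ hC h1 h2)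
    have hp : (0 : ℝ) < (1 / 2) ^ n := by positivity
    have hp' : (0 : ℝ) < (1 / 2) ^ (n + 1) := by positivity
    have h7 : 72 * Real.pi * C * (ε * (d * (1 / 2) ^ n) * (d * (3 - 2 * (1 / 2) ^ (n + 1))))
        + 72 * Real.pi * C * (ε * (d * (3 - 2 * (1 / 2) ^ n)) * (d * (1 / 2) ^ n))
        ≤ d * (1 / 2) ^ (n + 1) := by
      have h8 : 0 < Real.pi := Real.pi_pos
      calc 72 * Real.pi * C * (ε * (d * (1 / 2) ^ n) * (d * (3 - 2 * (1 / 2) ^ (n + 1))))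
            + 72 * Real.pi * C * (ε * (d * (3 - 2 * (1 / 2) ^ n)) * (d * (1 / 2) ^ n))
          = (72 * Real.pi * C * (ε * (d * (1 / 2) ^ n) * d))
              * (6 - 2 * (1 / 2) ^ (n + 1) - 2 * (1 / 2) ^ n) := by ring
        _ ≤ (72 * Real.pi * C * (ε * (d * (1 / 2) ^ n) * d)) * 6 :=
            mul_le_mul_of_nonneg_left (by linarith) (by positivity)
        _ = (d * (1 / 2) ^ n) * (72 * Real.pi * C * (ε * (6 * d))) := by ring
        _ ≤ (d * (1 / 2) ^ n) * (1 / 2) := mul_le_mul_of_nonneg_left hs (by positivity)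
        _ = d * (1 / 2) ^ (n + 1) := by rw [pow_succ]; ring
    exact h6.mono h7

theorem exp_le (x : ℝ) (hx : 0 ≤ x) : Real.exp (-(4 * Real.pi ^ 2 * x)) * (1 + x) ≤ 1 := by
  have h1 : 1 + x ≤ Real.exp x := by linarith [Real.add_one_le_exp x]
  have h2 : (1 : ℝ) ≤ 4 * Real.pi ^ 2 := by nlinarith [Real.pi_gt_three]
  have h3 : Real.exp x ≤ Real.exp (4 * Real.pi ^ 2 * x) := Real.exp_le_exp.2 (by nlinarith)
  calc Real.exp (-(4 * Real.pi ^ 2 * x)) * (1 + x)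
      ≤ Real.exp (-(4 * Real.pi ^ 2 * x)) * Real.exp (4 * Real.pi ^ 2 * x) :=
        mul_le_mul_of_nonneg_left (h1.trans h3) (Real.exp_pos _).le
    _ = 1 := by rw [← Real.exp_add]; simp

theorem heat_good (hm : ∀ j, Measurable (a0 j)) (hA : ∀ j ξ, (1 + ‖ξ‖) * ‖a0 j ξ‖ ≤ A ξ) (j : Fin 3) :
    Gd τ A fun t ξ => ((Real.exp (-(4 * Real.pi ^ 2 * cl τ t * ‖ξ‖ ^ 2)) : ℝ) : ℂ) * a0 j ξ where
  meas t := by
    have h3 : Measurable fun ξ : E => 4 * Real.pi ^ 2 * cl τ t * ‖ξ‖ ^ 2 := by fun_prop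
    exact (Complex.measurable_ofReal.comp (Real.measurable_exp.comp h3.neg)).mul (hm j)
  cont ξ := by
    have h := cl_cont τ
    have h1 : Continuous fun t =>
        ((Real.exp (-(4 * Real.pi ^ 2 * cl τ t * ‖ξ‖ ^ 2)) : ℝ) : ℂ) := by fun_prop
    exact h1.mul continuous_const
  bd t ξ := by
    refine le_trans ?_ (hA j ξ)
    have hs := cl_nonneg τ t
    have h1 := exp_le (cl τ t * ‖ξ‖ ^ 2) (by positivity)
    rw [norm_mul, Complex.norm_real, Real.norm_eq_abs, abs_of_pos (Real.exp_pos _)]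
    calc _ = (Real.exp (-(4 * Real.pi ^ 2 * (cl τ t * ‖ξ‖ ^ 2))) * (1 + cl τ t * ‖ξ‖ ^ 2))
          * ((1 + ‖ξ‖) * ‖a0 j ξ‖) := by
          rw [← mul_assoc (4 * Real.pi ^ 2)]; ring
      _ ≤ 1 * ((1 + ‖ξ‖) * ‖a0 j ξ‖) := mul_le_mul_of_nonneg_right h1 (by positivity)
      _ = _ := one_mul _

section
variable {P Q D : E → ℝ} {a b : Fin 3 → ℝ → E → ℂ}

theorem nl_diff (ha : ∀ k, Gd τ P (a k)) (hb : ∀ k, Gd τ Q (b k))
    (hD : ∀ k, Gd τ D fun t ξ => a k t ξ - b k t ξ)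
    (h1 : ∀ ξ, Integrable fun ζ => P ζ * P (ξ - ζ)) (h2 : ∀ ξ, Integrable fun ζ => Q ζ * Q (ξ - ζ))
    (h3 : ∀ ξ, Integrable fun ζ => D ζ * P (ξ - ζ)) (h4 : ∀ ξ, Integrable fun ζ => Q ζ * D (ξ - ζ))
    (j : Fin 3) (t : ℝ) (ξ : E) :
    nl a j t ξ - nl b j t ξ
      = nlb (fun k t ξ => a k t ξ - b k t ξ) a j t ξ + nlb b (fun k t ξ => a k t ξ - b k t ξ) j t ξ := by
  unfold nl nlb
  rw [← Finset.sum_sub_distrib, ← Finset.sum_add_distrib]
  refine Finset.sum_congr rfl fun k _ => ?_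
  rw [← Finset.sum_sub_distrib, ← Finset.sum_add_distrib]
  refine Finset.sum_congr rfl fun l _ => ?_
  rw [← mul_sub, ← mul_add]
  congr 1
  unfold conv
  rw [← integral_sub (prod_int (ha k) (ha l) h1 t ξ) (prod_int (hb k) (hb l) h2 t ξ),
    ← integral_add (prod_int (hD k) (ha l) h3 t ξ) (prod_int (hb k) (hD l) h4 t ξ)]
  refine integral_congr_ae (Eventually.of_forall fun η => ?_)
  simp only
  ring

end

theorem it_good (hC : Duh C) (hC0 : 0 < C) (hK : Ker ε τ) (hε : 0 < ε) (hτ : 0 < τ) (hA : El A d)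
    (hs : 72 * Real.pi * C * (ε * (6 * d)) ≤ 1 / 2) (hm : ∀ j, Measurable (a0 j))
    (hA' : ∀ j ξ, (1 + ‖ξ‖) * ‖a0 j ξ‖ ≤ A ξ) (n : ℕ) :
    (∀ j, Gd τ (st C τ A n).1 (it τ a0 n j)) ∧ ∀ j, Gd τ (st C τ A n).2 (dd τ a0 n j) := by
  have hel := st_el hK hε hτ hC0 hA hs
  induction n with
  | zero =>
    refine ⟨fun j => ?_, fun j => ?_⟩
    · exact ⟨fun t => measurable_const, fun ξ => continuous_const, fun t ξ => by simp [it, st]⟩
    · refine (heat_good (τ := τ) hm hA' j).congr (fun _ => rfl) fun t ξ => ?_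
      have h1 : nl (it τ a0 0) j = fun _ _ => 0 := by
        funext t ξ
        simp [nl, conv, it]
      show _ = it τ a0 1 j t ξ - it τ a0 0 j t ξ
      simp only [it]
      rw [show (nl (fun _ _ _ => (0 : ℂ)) j : ℝ → E → ℂ) = fun _ _ => 0 from h1]
      simp [Du]
  | succ n ih =>
    obtain ⟨h1, h2⟩ := ih
    obtain ⟨e1, e2⟩ := hel n
    obtain ⟨e3, e4⟩ := hel (n + 1)
    have h3 : ∀ j, Gd τ (st C τ A (n + 1)).1 (it τ a0 (n + 1) j) := fun j =>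
      ((h1 j).add (h2 j)).congr (fun _ => rfl) fun t ξ => by unfold dd; ring
    refine ⟨h3, fun j => ?_⟩
    have i1 := hK.hi e3.ll e3.ll
    have i2 := hK.hi e1.ll e1.ll
    have i3 := hK.hi e2.ll e3.ll
    have i4 := hK.hi e1.ll e2.ll
    have g1 := Du_good (G := nlb (dd τ a0 n) (it τ a0 (n + 1)) j) hC hτ
      (nlb_meas h2 h3 j) (nlb_cont h2 h3 i3 j) (II_nonneg e2.ll e3.ll)
      (nlb_le e2.ll e3.ll h2 h3 i3 j)
    have g2 := Du_good (G := nlb (it τ a0 n) (dd τ a0 n) j) hC hτ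
      (nlb_meas h1 h2 j) (nlb_cont h1 h2 i4 j) (II_nonneg e1.ll e2.ll)
      (nlb_le e1.ll e2.ll h1 h2 i4 j)
    refine ((g1.add g2).neg).congr (fun _ => rfl) fun t ξ => ?_
    show _ = it τ a0 (n + 1 + 1) j t ξ - it τ a0 (n + 1) j t ξ
    have k1 : it τ a0 (n + 1 + 1) j t ξ
        = ((Real.exp (-(4 * Real.pi ^ 2 * cl τ t * ‖ξ‖ ^ 2)) : ℝ) : ℂ) * a0 j ξ
          - Du τ (nl (it τ a0 (n + 1)) j) t ξ := rfl
    have k2 : it τ a0 (n + 1) j t ξ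
        = ((Real.exp (-(4 * Real.pi ^ 2 * cl τ t * ‖ξ‖ ^ 2)) : ℝ) : ℂ) * a0 j ξ
          - Du τ (nl (it τ a0 n) j) t ξ := rfl
    have c1 : ∀ ξ, Continuous fun t => nl (it τ a0 (n + 1)) j t ξ := nlb_cont h3 h3 i1 j
    have c2 : ∀ ξ, Continuous fun t => nl (it τ a0 n) j t ξ := nlb_cont h1 h1 i2 j
    have k3 := Du_sub (τ := τ) c1 c2 t ξ
    have k4 := Du_add (τ := τ) (nlb_cont h2 h3 i3 j) (nlb_cont h1 h2 i4 j) t ξ
    have k5 : (fun t ξ => nl (it τ a0 (n + 1)) j t ξ - nl (it τ a0 n) j t ξ)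
        = fun t ξ => nlb (dd τ a0 n) (it τ a0 (n + 1)) j t ξ + nlb (it τ a0 n) (dd τ a0 n) j t ξ := by
      funext t ξ
      exact nl_diff h3 h1 h2 i1 i2 i3 i4 j t ξ
    rw [k5, k4] at k3
    rw [k1, k2, k3]
    ring

end Pool.Agent.Q209.LH
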