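import Mathlib
import Pool.Agent.Q209.LH.It

/-!
Project LH, job S_EX: symmetry and divergence of the iterates.
-/

set_option autoImplicit false

open MeasureTheory Set Filter
open scoped ComplexConjugate Topology

namespace Pool.Agent.Q209.LH

open Pool.Agent.W785.QR (E conv sy nl sy_norm sy_meas sy_neg sy_div)

variable {ε τ C d : ℝ} {A : E → ℝ} {a0 : Fin 3 → E → ℂ}

theorem conv_neg {f g : ℝ → E → ℂ} {t : ℝ} (hf : ∀ ξ, f t (-ξ) = conj (f t ξ))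
    (hg : ∀ ξ, g t (-ξ) = conj (g t ξ)) (ξ : E) : conv f g t (-ξ) = conj (conv f g t ξ) := by
  unfold conv
  rw [← integral_conj, ← integral_neg_eq_self]
  refine integral_congr_ae (Eventually.of_forall fun η => ?_)
  simp only
  rw [map_mul, ← hf, ← hg]
  congr 2
  abel

theorem nl_neg {a : Fin 3 → ℝ → E → ℂ} {t : ℝ} (h : ∀ k ξ, a k t (-ξ) = conj (a k t ξ)) (j : Fin 3)
    (ξ : E) : nl a j t (-ξ) = conj (nl a j t ξ) := by
  unfold nl
  rw [map_sum]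
  refine Finset.sum_congr rfl fun k _ => ?_
  rw [map_sum]
  refine Finset.sum_congr rfl fun l _ => ?_
  rw [map_mul, sy_neg, conv_neg (h k) (h l)]

theorem Du_neg {G : ℝ → E → ℂ} (h : ∀ t ξ, G t (-ξ) = conj (G t ξ)) (t : ℝ) (ξ : E) :
    Du τ G t (-ξ) = conj (Du τ G t ξ) := by
  unfold Du
  rw [intervalIntegral.integral_of_le (cl_nonneg τ t), intervalIntegral.integral_of_le (cl_nonneg τ t),
    ← integral_conj]
  refine integral_congr_ae (Eventually.of_forall fun s => ?_)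
  simp only
  rw [h, norm_neg, map_mul, Complex.conj_ofReal]

theorem it_herm (h0 : ∀ j ξ, a0 j (-ξ) = conj (a0 j ξ)) (n : ℕ) (j : Fin 3) (t : ℝ) (ξ : E) :
    it τ a0 n j t (-ξ) = conj (it τ a0 n j t ξ) := by
  induction n generalizing j t ξ with
  | zero => simp [it]
  | succ n ih =>
    simp only [it]
    rw [map_sub, Du_neg (fun t ξ => nl_neg (fun k ξ => ih k t ξ) j ξ), map_mul, Complex.conj_ofReal, h0,
      norm_neg]

theorem nl_div (a : Fin 3 → ℝ → E → ℂ) (t : ℝ) (ξ : E) :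
    ∑ j, ((ξ j : ℝ) : ℂ) * nl a j t ξ = 0 := by
  unfold nl
  simp only [Finset.mul_sum]
  rw [Finset.sum_comm]
  refine Finset.sum_eq_zero fun k _ => ?_
  rw [Finset.sum_comm]
  refine Finset.sum_eq_zero fun l _ => ?_
  have h := sy_div ξ k l
  simp only [← mul_assoc]
  rw [← Finset.sum_mul, h, zero_mul]

theorem Du_div {G : Fin 3 → ℝ → E → ℂ} (hc : ∀ j ξ, Continuous fun t => G j t ξ)
    (h : ∀ t ξ, ∑ j, ((ξ j : ℝ) : ℂ) * G j t ξ = 0) (t : ℝ) (ξ : E) :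
    ∑ j, ((ξ j : ℝ) : ℂ) * Du τ (G j) t ξ = 0 := by
  unfold Du
  simp only [← intervalIntegral.integral_const_mul]
  rw [← intervalIntegral.integral_finsetSum
    (fun j _ => (Du_int (hc j) t ξ 0 (cl τ t)).const_mul ((ξ j : ℝ) : ℂ))]
  have h2 : ∀ s : ℝ, ∑ j, ((ξ j : ℝ) : ℂ) * (((Real.exp
      (-(4 * Real.pi ^ 2 * (cl τ t - s) * ‖ξ‖ ^ 2)) : ℝ) : ℂ) * G j s ξ) = 0 := fun s => by
    have h1 := h s ξ
    calc _ = ((Real.exp (-(4 * Real.pi ^ 2 * (cl τ t - s) * ‖ξ‖ ^ 2)) : ℝ) : ℂ)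
          * ∑ j, ((ξ j : ℝ) : ℂ) * G j s ξ := by
          rw [Finset.mul_sum]
          exact Finset.sum_congr rfl fun j _ => by ring
      _ = 0 := by rw [h1, mul_zero]
  simp only [h2]
  simp

theorem it_div (hC : Duh C) (hC0 : 0 < C) (hK : Ker ε τ) (hε : 0 < ε) (hτ : 0 < τ) (hA : El A d)
    (hs : 72 * Real.pi * C * (ε * (6 * d)) ≤ 1 / 2) (hm : ∀ j, Measurable (a0 j))
    (hA' : ∀ j ξ, (1 + ‖ξ‖) * ‖a0 j ξ‖ ≤ A ξ)
    (h0 : ∀ ξ : E, ∑ j, ((ξ j : ℝ) : ℂ) * a0 j ξ = 0) (n : ℕ) (t : ℝ) (ξ : E) :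
    ∑ j, ((ξ j : ℝ) : ℂ) * it τ a0 n j t ξ = 0 := by
  cases n with
  | zero => simp [it]
  | succ n =>
    have h1 := (it_good hC hC0 hK hε hτ hA hs hm hA' n).1
    have e1 := (st_el hK hε hτ hC0 hA hs n).1
    have i2 := hK.hi e1.ll e1.ll
    have c2 : ∀ j ξ, Continuous fun t => nl (it τ a0 n) j t ξ := fun j => nlb_cont h1 h1 i2 j
    have h2 := Du_div (τ := τ) c2 (fun t ξ => nl_div _ t ξ) t ξ
    simp only [it, mul_sub, Finset.sum_sub_distrib]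
    rw [h2, sub_zero]
    calc _ = ((Real.exp (-(4 * Real.pi ^ 2 * cl τ t * ‖ξ‖ ^ 2)) : ℝ) : ℂ)
          * ∑ j, ((ξ j : ℝ) : ℂ) * a0 j ξ := by
          rw [Finset.mul_sum]
          exact Finset.sum_congr rfl fun j _ => by ring
      _ = 0 := by rw [h0, mul_zero]

theorem it_zero (n : ℕ) (j : Fin 3) (ξ : E) (hτ : 0 ≤ τ) : it τ a0 (n + 1) j 0 ξ = a0 j ξ := by
  have h : cl τ 0 = 0 := cl_eq ⟨le_rfl, hτ⟩
  simp [it, Du, h]

end Pool.Agent.Q209.LH
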