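import Mathlib
import Pool.Agent.Q209.LH.Sy

/-!
Project LH, job S_EX: the good set of frequencies and the final majorant.
-/

set_option autoImplicit false

open MeasureTheory Set Filter
open scoped ComplexConjugate Topology

namespace Pool.Agent.Q209.LH

open Pool.Agent.W785.QR (E conv sy nl sy_norm sy_meas sy_neg sy_div)

/-- `∑ 2ⁿ Dₙ²` -/
noncomputable def SS (D : ℕ → E → ℝ) (ξ : E) : ENNReal := ∑' n, ENNReal.ofReal (2 ^ n * D n ξ ^ 2)

/-- the good set -/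
def FF (D : ℕ → E → ℝ) : Set E := {ξ | SS D ξ < ⊤ ∧ SS D (-ξ) < ⊤}

open Classical in
/-- the final majorant -/
noncomputable def MM (D : ℕ → E → ℝ) (ξ : E) : ℝ :=
  if ξ ∈ FF D then Real.sqrt (2 * (SS D ξ).toReal) else 0

variable {d : ℝ} {D : ℕ → E → ℝ}

theorem SS_meas (hD : ∀ n, El (D n) (d * (1 / 2) ^ n)) : Measurable (SS D) :=
  Measurable.tsum fun n => ENNReal.measurable_ofReal.comp (((hD n).ll.meas.pow_const 2).const_mul _)

theorem SS_lint (hD : ∀ n, El (D n) (d * (1 / 2) ^ n)) :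
    ∫⁻ ξ, SS D ξ ≤ ENNReal.ofReal (2 * d ^ 2) := by
  have h0 : ∀ n, AEMeasurable (fun ξ => ENNReal.ofReal (2 ^ n * D n ξ ^ 2)) := fun n =>
    (ENNReal.measurable_ofReal.comp (((hD n).ll.meas.pow_const 2).const_mul _)).aemeasurable
  unfold SS
  rw [lintegral_tsum h0]
  have h1 : ∀ n, ∫⁻ ξ, ENNReal.ofReal (2 ^ n * D n ξ ^ 2) ≤ ENNReal.ofReal (d ^ 2 * (1 / 2) ^ n) := by
    intro n
    rw [← ofReal_integral_eq_lintegral_ofReal ((hD n).ll.int.const_mul _)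
      (Eventually.of_forall fun ξ => by positivity)]
    refine ENNReal.ofReal_le_ofReal ?_
    rw [integral_const_mul]
    calc (2 : ℝ) ^ n * ∫ ξ, D n ξ ^ 2 ≤ 2 ^ n * (d * (1 / 2) ^ n) ^ 2 :=
          mul_le_mul_of_nonneg_left (hD n).le (by positivity)
      _ = d ^ 2 * (1 / 2) ^ n * (2 ^ n * (1 / 2) ^ n) := by ring
      _ = d ^ 2 * (1 / 2) ^ n := by rw [← mul_pow]; norm_num
  have hsum : Summable fun n : ℕ => d ^ 2 * (1 / 2 : ℝ) ^ n := summable_geometric_two.mul_left _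
  calc ∑' n, ∫⁻ ξ, ENNReal.ofReal (2 ^ n * D n ξ ^ 2)
      ≤ ∑' n : ℕ, ENNReal.ofReal (d ^ 2 * (1 / 2) ^ n) := ENNReal.tsum_le_tsum h1
    _ = ENNReal.ofReal (∑' n : ℕ, d ^ 2 * (1 / 2) ^ n) :=
        (ENNReal.ofReal_tsum_of_nonneg (fun n => by positivity) hsum).symm
    _ = ENNReal.ofReal (2 * d ^ 2) := by rw [tsum_mul_left, tsum_geometric_two, mul_comm]

theorem FF_meas (hD : ∀ n, El (D n) (d * (1 / 2) ^ n)) : MeasurableSet (FF D) :=
  (measurableSet_lt (SS_meas hD) measurable_const).inter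
    (measurableSet_lt ((SS_meas hD).comp measurable_neg) measurable_const)

theorem FF_ae (hD : ∀ n, El (D n) (d * (1 / 2) ^ n)) : ∀ᵐ ξ : E, ξ ∈ FF D := by
  have h1 : ∀ᵐ ξ : E, SS D ξ < ⊤ :=
    ae_lt_top (SS_meas hD) ((SS_lint hD).trans_lt ENNReal.ofReal_lt_top).ne
  have h2 : ∀ᵐ ξ : E, SS D (-ξ) < ⊤ :=
    (Measure.measurePreserving_neg (volume : Measure E)).quasiMeasurePreserving.ae h1
  filter_upwards [h1, h2] with ξ k1 k2
  exact ⟨k1, k2⟩

theorem FF_null (hD : ∀ n, El (D n) (d * (1 / 2) ^ n)) : volume (FF D)ᶜ = 0 := by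
  have := FF_ae hD
  rwa [ae_iff] at this

theorem FF_neg (ξ : E) : -ξ ∈ FF D ↔ ξ ∈ FF D := by
  unfold FF
  simp only [mem_ofPred_eq, neg_neg]
  exact and_comm

theorem MM_meas (hD : ∀ n, El (D n) (d * (1 / 2) ^ n)) : Measurable (MM D) := by
  unfold MM
  exact Measurable.ite (FF_meas hD)
    (Real.continuous_sqrt.measurable.comp ((SS_meas hD).ennreal_toReal.const_mul _)) measurable_const

theorem MM_nonneg (ξ : E) : 0 ≤ MM D ξ := by
  unfold MM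
  split_ifs
  · exact Real.sqrt_nonneg _
  · exact le_rfl

theorem MM_sq_le (ξ : E) : MM D ξ ^ 2 ≤ 2 * (SS D ξ).toReal := by
  unfold MM
  split_ifs
  · rw [Real.sq_sqrt (by positivity)]
  · have : 0 ≤ 2 * (SS D ξ).toReal := by positivity
    rw [zero_pow two_ne_zero]; exact this

theorem SS_int (hD : ∀ n, El (D n) (d * (1 / 2) ^ n)) : Integrable fun ξ => (SS D ξ).toReal :=
  integrable_toReal_of_lintegral_ne_top (SS_meas hD).aemeasurable
    ((SS_lint hD).trans_lt ENNReal.ofReal_lt_top).ne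

theorem MM_int (hD : ∀ n, El (D n) (d * (1 / 2) ^ n)) : Integrable fun ξ => MM D ξ ^ 2 := by
  refine ((SS_int hD).const_mul 2).mono' ((MM_meas hD).pow_const 2).aestronglyMeasurable
    (Eventually.of_forall fun ξ => ?_)
  rw [Real.norm_eq_abs, abs_of_nonneg (sq_nonneg _)]
  exact MM_sq_le ξ

theorem MM_le (hD : ∀ n, El (D n) (d * (1 / 2) ^ n)) : ∫ ξ, MM D ξ ^ 2 ≤ 4 * d ^ 2 := by
  have h1 : ∫ ξ, (SS D ξ).toReal ≤ 2 * d ^ 2 := by
    have h0 : ∀ᵐ ξ : E, SS D ξ < ⊤ :=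
      ae_lt_top (SS_meas hD) ((SS_lint hD).trans_lt ENNReal.ofReal_lt_top).ne
    rw [integral_toReal (SS_meas hD).aemeasurable h0]
    exact ENNReal.toReal_le_of_le_ofReal (by positivity) (SS_lint hD)
  calc ∫ ξ, MM D ξ ^ 2 ≤ ∫ ξ, 2 * (SS D ξ).toReal :=
        integral_mono_of_nonneg (Eventually.of_forall fun ξ => sq_nonneg _)
          ((SS_int hD).const_mul 2) (Eventually.of_forall fun ξ => MM_sq_le ξ)
    _ = 2 * ∫ ξ, (SS D ξ).toReal := integral_const_mul _ _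
    _ ≤ 4 * d ^ 2 := by linarith

theorem MM_ll (hD : ∀ n, El (D n) (d * (1 / 2) ^ n)) : LL (MM D) :=
  ⟨MM_meas hD, MM_nonneg, MM_int hD⟩

theorem sum_le_MM {ξ : E} (hξ : ξ ∈ FF D) (N : ℕ) :
    ∑ k ∈ Finset.range N, D k ξ ≤ MM D ξ := by
  have h1 : (∑ k ∈ Finset.range N, D k ξ) ^ 2
      ≤ (∑ k ∈ Finset.range N, (1 / (2 : ℝ)) ^ k) * ∑ k ∈ Finset.range N, 2 ^ k * D k ξ ^ 2 := by
    refine Finset.sum_sq_le_sum_mul_sum_of_sq_le_mul _ (fun k _ => by positivity)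
      (fun k _ => by positivity) fun k _ => le_of_eq ?_
    rw [← mul_assoc, ← mul_pow]
    norm_num
  have h2 : ∑ k ∈ Finset.range N, (1 / (2 : ℝ)) ^ k ≤ 2 := sum_geometric_two_le N
  have h3 : ∑ k ∈ Finset.range N, 2 ^ k * D k ξ ^ 2 ≤ (SS D ξ).toReal := by
    rw [← ENNReal.ofReal_le_iff_le_toReal hξ.1.ne, ENNReal.ofReal_sum_of_nonneg
      (fun k _ => by positivity)]
    exact ENNReal.sum_le_tsum _
  have h4 : 0 ≤ ∑ k ∈ Finset.range N, 2 ^ k * D k ξ ^ 2 := Finset.sum_nonneg fun k _ => by positivity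
  unfold MM
  rw [if_pos hξ]
  refine Real.le_sqrt_of_sq_le (h1.trans ?_)
  exact mul_le_mul h2 h3 h4 (by norm_num)

end Pool.Agent.Q209.LH
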