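import Mathlib
import Pool.Agent.Q209.LH.Lim

/-!
Project LH, job S_EX: existence of strong solutions on the Fourier side.
-/

set_option autoImplicit false

open MeasureTheory Set Filter
open scoped ComplexConjugate Topology

namespace Pool.Agent.Q209.LH

open Pool.Agent.W785.QR (E conv sy nl sy_norm sy_meas sy_neg sy_div)
open Pool.Agent.Q63.LH (EX Dat S_EX S_KER S_DUH)

/-- everything that is needed for the limit -/
structure Ctx (C ε τ d : ℝ) (A : E → ℝ) (a0 : Fin 3 → E → ℂ) : Prop where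
  hC : Duh C
  hC0 : 0 < C
  hK : Ker ε τ
  hε : 0 < ε
  hτ : 0 < τ
  hA : El A d
  hs : 72 * Real.pi * C * (ε * (6 * d)) ≤ 1 / 2
  hm : ∀ j, Measurable (a0 j)
  hA' : ∀ j ξ, (1 + ‖ξ‖) * ‖a0 j ξ‖ ≤ A ξ
  herm : ∀ j ξ, a0 j (-ξ) = conj (a0 j ξ)
  div : ∀ ξ : E, ∑ j, ((ξ j : ℝ) : ℂ) * a0 j ξ = 0

/-- the majorants of the differences -/
noncomputable def DD (C τ : ℝ) (A : E → ℝ) (n : ℕ) : E → ℝ := (st C τ A n).2

open Classical in
/-- the solution -/
noncomputable def aa (C τ : ℝ) (A : E → ℝ) (a0 : Fin 3 → E → ℂ) (j : Fin 3) (t : ℝ) (ξ : E) : ℂ :=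
  if ξ ∈ FF (DD C τ A) then ∑' n, dd τ a0 n j t ξ else 0

variable {C ε τ d : ℝ} {A : E → ℝ} {a0 : Fin 3 → E → ℂ}

theorem Ctx.el (h : Ctx C ε τ d A a0) (n : ℕ) : El (DD C τ A n) (d * (1 / 2) ^ n) :=
  (st_el h.hK h.hε h.hτ h.hC0 h.hA h.hs n).2

theorem Ctx.elM (h : Ctx C ε τ d A a0) (n : ℕ) : LL (st C τ A n).1 :=
  (st_el h.hK h.hε h.hτ h.hC0 h.hA h.hs n).1.ll

theorem Ctx.gd (h : Ctx C ε τ d A a0) (n : ℕ) (j : Fin 3) : Gd τ (st C τ A n).1 (it τ a0 n j) :=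
  (it_good h.hC h.hC0 h.hK h.hε h.hτ h.hA h.hs h.hm h.hA' n).1 j

theorem Ctx.gdd (h : Ctx C ε τ d A a0) (n : ℕ) (j : Fin 3) : Gd τ (DD C τ A n) (dd τ a0 n j) :=
  (it_good h.hC h.hC0 h.hK h.hε h.hτ h.hA h.hs h.hm h.hA' n).2 j

theorem st_sum (N : ℕ) (ξ : E) : (st C τ A N).1 ξ = ∑ k ∈ Finset.range N, DD C τ A k ξ := by
  induction N with
  | zero => simp [st]
  | succ N ih => rw [Finset.sum_range_succ, ← ih]; rfl

theorem Ctx.M_le (_h : Ctx C ε τ d A a0) {ξ : E} (hξ : ξ ∈ FF (DD C τ A)) (n : ℕ) :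
    (st C τ A n).1 ξ ≤ MM (DD C τ A) ξ := by
  rw [st_sum]; exact sum_le_MM hξ n

theorem Ctx.summ (h : Ctx C ε τ d A a0) {ξ : E} (hξ : ξ ∈ FF (DD C τ A)) :
    Summable fun n => DD C τ A n ξ :=
  summable_of_sum_range_le (fun n => (h.el n).ll.nonneg ξ) fun n => sum_le_MM hξ n

theorem Ctx.tends (h : Ctx C ε τ d A a0) {ξ : E} (hξ : ξ ∈ FF (DD C τ A)) (j : Fin 3) (t : ℝ) :
    Tendsto (fun n => it τ a0 n j t ξ) atTop (𝓝 (aa C τ A a0 j t ξ)) := by
  have h1 : Summable fun n => dd τ a0 n j t ξ :=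
    Summable.of_norm_bounded (h.summ hξ) fun n => (h.gdd n j).le t ξ
  have h2 := h1.hasSum.tendsto_sum_nat
  have h3 : ∀ n, ∑ i ∈ Finset.range n, dd τ a0 i j t ξ = it τ a0 n j t ξ := fun n => by
    have := Finset.sum_range_sub (fun n => it τ a0 n j t ξ) n
    unfold dd
    rw [this]
    simp [it]
  simp only [h3] at h2
  unfold aa
  rw [if_pos hξ]
  exact h2

theorem aa_not {ξ : E} (hξ : ξ ∉ FF (DD C τ A)) (j : Fin 3) (t : ℝ) : aa C τ A a0 j t ξ = 0 := by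
  unfold aa
  rw [if_neg hξ]

theorem Ctx.meas (h : Ctx C ε τ d A a0) (j : Fin 3) (t : ℝ) : Measurable (aa C τ A a0 j t) := by
  refine measurable_of_tendsto_metrizable
    (f := fun n => (FF (DD C τ A)).indicator (it τ a0 n j t))
    (fun n => ((h.gd n j).meas t).indicator (FF_meas h.el)) ?_
  rw [tendsto_pi_nhds]
  intro ξ
  by_cases hξ : ξ ∈ FF (DD C τ A)
  · simp only [indicator_of_mem hξ]
    exact h.tends hξ j t
  · simp only [indicator_of_notMem hξ]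
    rw [aa_not hξ]
    exact tendsto_const_nhds

theorem Ctx.cont (h : Ctx C ε τ d A a0) (j : Fin 3) (ξ : E) : Continuous fun t => aa C τ A a0 j t ξ := by
  by_cases hξ : ξ ∈ FF (DD C τ A)
  · unfold aa
    simp only [if_pos hξ]
    exact continuous_tsum (fun n => (h.gdd n j).cont ξ) (h.summ hξ) fun n t => (h.gdd n j).le t ξ
  · unfold aa
    simp only [if_neg hξ]
    exact continuous_const

theorem Ctx.gda (h : Ctx C ε τ d A a0) (j : Fin 3) : Gd τ (MM (DD C τ A)) (aa C τ A a0 j) where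
  meas := h.meas j
  cont := h.cont j
  bd t ξ := by
    by_cases hξ : ξ ∈ FF (DD C τ A)
    · have h1 := ((h.tends hξ j t).norm).mul_const ((1 + ‖ξ‖) * (1 + cl τ t * ‖ξ‖ ^ 2))
      exact le_of_tendsto' h1 fun n => ((h.gd n j).bd t ξ).trans (h.M_le hξ n)
    · rw [aa_not hξ]
      simp only [norm_zero, zero_mul]
      exact MM_nonneg ξ

theorem Ctx.hMM (h : Ctx C ε τ d A a0) (ξ : E) :
    Integrable fun ζ => MM (DD C τ A) ζ * MM (DD C τ A) (ξ - ζ) :=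
  h.hK.hi (MM_ll h.el) (MM_ll h.el) ξ

theorem Ctx.it_ae (h : Ctx C ε τ d A a0) (n : ℕ) (k l : Fin 3) (t : ℝ) (ξ : E) :
    ∀ᵐ η : E, ‖it τ a0 n k t η * it τ a0 n l t (ξ - η)‖
      ≤ MM (DD C τ A) η * MM (DD C τ A) (ξ - η) := by
  have h1 := FF_ae h.el
  have h2 : ∀ᵐ η : E, ξ - η ∈ FF (DD C τ A) :=
    (Measure.measurePreserving_sub_left (volume : Measure E) ξ).quasiMeasurePreserving.ae h1
  filter_upwards [h1, h2] with η k1 k2
  rw [norm_mul]
  exact mul_le_mul (((h.gd n k).le t η).trans (h.M_le k1 n))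
    (((h.gd n l).le t (ξ - η)).trans (h.M_le k2 n)) (norm_nonneg _) (MM_nonneg _)

theorem Ctx.conv_tends (h : Ctx C ε τ d A a0) (k l : Fin 3) (t : ℝ) (ξ : E) :
    Tendsto (fun n => conv (it τ a0 n k) (it τ a0 n l) t ξ) atTop
      (𝓝 (conv (aa C τ A a0 k) (aa C τ A a0 l) t ξ)) := by
  have h1 := FF_ae h.el
  have h2 : ∀ᵐ η : E, ξ - η ∈ FF (DD C τ A) :=
    (Measure.measurePreserving_sub_left (volume : Measure E) ξ).quasiMeasurePreserving.ae h1
  unfold conv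
  refine tendsto_integral_of_dominated_convergence
    (fun η => MM (DD C τ A) η * MM (DD C τ A) (ξ - η))
    (fun n => (prod_meas (h.gd n k) (h.gd n l) t ξ).aestronglyMeasurable) (h.hMM ξ)
    (fun n => h.it_ae n k l t ξ) ?_
  filter_upwards [h1, h2] with η k1 k2
  exact (h.tends k1 k t).mul (h.tends k2 l t)

theorem Ctx.conv_le (h : Ctx C ε τ d A a0) (n : ℕ) (k l : Fin 3) (t : ℝ) (ξ : E) :
    ‖conv (it τ a0 n k) (it τ a0 n l) t ξ‖ ≤ ∫ η, MM (DD C τ A) η * MM (DD C τ A) (ξ - η) :=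
  norm_integral_le_of_norm_le (h.hMM ξ) (h.it_ae n k l t ξ)

theorem Ctx.nl_tends (h : Ctx C ε τ d A a0) (j : Fin 3) (t : ℝ) (ξ : E) :
    Tendsto (fun n => nl (it τ a0 n) j t ξ) atTop (𝓝 (nl (aa C τ A a0) j t ξ)) := by
  unfold nl
  exact tendsto_finsetSum _ fun k _ => tendsto_finsetSum _ fun l _ =>
    (h.conv_tends k l t ξ).const_mul _

theorem Ctx.nl_le (h : Ctx C ε τ d A a0) (n : ℕ) (j : Fin 3) (t : ℝ) (ξ : E) :
    ‖nl (it τ a0 n) j t ξ‖
      ≤ 9 * (4 * Real.pi * ‖ξ‖ * ∫ η, MM (DD C τ A) η * MM (DD C τ A) (ξ - η)) := by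
  unfold nl
  refine sum9_le _ _ fun k l => ?_
  rw [norm_mul]
  exact mul_le_mul (sy_norm ξ j k l) (h.conv_le n k l t ξ) (norm_nonneg _) (by positivity)

theorem Ctx.Du_tends (h : Ctx C ε τ d A a0) (j : Fin 3) (t : ℝ) (ξ : E) :
    Tendsto (fun n => Du τ (nl (it τ a0 n) j) t ξ) atTop (𝓝 (Du τ (nl (aa C τ A a0) j) t ξ)) := by
  unfold Du
  refine intervalIntegral.tendsto_integral_filter_of_dominated_convergence
    (fun _ => 9 * (4 * Real.pi * ‖ξ‖ * ∫ η, MM (DD C τ A) η * MM (DD C τ A) (ξ - η)))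
    (Eventually.of_forall fun n => ?_) (Eventually.of_forall fun n => Eventually.of_forall fun s hs => ?_)
    intervalIntegrable_const (Eventually.of_forall fun s _ => ?_)
  · have c : ∀ ξ, Continuous fun t => nl (it τ a0 n) j t ξ :=
      nlb_cont (fun k => h.gd n k) (fun k => h.gd n k) (h.hK.hi (h.elM n) (h.elM n)) j
    refine Continuous.aestronglyMeasurable ?_
    exact (by fun_prop : Continuous fun s : ℝ =>
        ((Real.exp (-(4 * Real.pi ^ 2 * (cl τ t - s) * ‖ξ‖ ^ 2)) : ℝ) : ℂ)).mul (c ξ)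
  · rw [uIoc_of_le (cl_nonneg τ t)] at hs
    rw [norm_mul, Complex.norm_real, Real.norm_eq_abs, abs_of_pos (Real.exp_pos _)]
    have h1 : Real.exp (-(4 * Real.pi ^ 2 * (cl τ t - s) * ‖ξ‖ ^ 2)) ≤ 1 := by
      rw [Real.exp_le_one_iff]
      have : 0 ≤ cl τ t - s := by linarith [hs.2]
      have : 0 ≤ 4 * Real.pi ^ 2 * (cl τ t - s) * ‖ξ‖ ^ 2 := by positivity
      linarith
    calc _ ≤ 1 * ‖nl (it τ a0 n) j s ξ‖ := mul_le_mul_of_nonneg_right h1 (norm_nonneg _)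
      _ ≤ _ := by rw [one_mul]; exact h.nl_le n j s ξ
  · exact (h.nl_tends j s ξ).const_mul _

theorem Ctx.ex (h : Ctx C ε τ d A a0) :
    EX τ a0 (aa C τ A a0) (FF (DD C τ A)) (MM (DD C τ A)) where
  measF := FF_meas h.el
  nullF := FF_null h.el
  measM := MM_meas h.el
  intM := MM_int h.el
  meas := h.meas
  cont := h.cont
  zero j t ξ hξ := aa_not hξ j t
  bound j t ht ξ := by
    have h1 := (h.gda j).bd t ξ
    rwa [cl_eq ht] at h1
  herm j t ξ := by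
    by_cases hξ : ξ ∈ FF (DD C τ A)
    · have h1 := h.tends ((FF_neg ξ).2 hξ) j t
      have h2 := (Complex.continuous_conj.tendsto _).comp (h.tends hξ j t)
      refine tendsto_nhds_unique h1 ?_
      refine h2.congr fun n => ?_
      exact (it_herm h.herm n j t ξ).symm
    · rw [aa_not hξ, aa_not (fun h' => hξ ((FF_neg ξ).1 h')), map_zero]
  divfree t ξ := by
    by_cases hξ : ξ ∈ FF (DD C τ A)
    · have h1 : Tendsto (fun n => ∑ j, ((ξ j : ℝ) : ℂ) * it τ a0 n j t ξ) atTop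
          (𝓝 (∑ j, ((ξ j : ℝ) : ℂ) * aa C τ A a0 j t ξ)) :=
        tendsto_finsetSum _ fun j _ => (h.tends hξ j t).const_mul _
      have h2 : ∀ n, ∑ j, ((ξ j : ℝ) : ℂ) * it τ a0 n j t ξ = 0 := fun n =>
        it_div h.hC h.hC0 h.hK h.hε h.hτ h.hA h.hs h.hm h.hA' h.div n t ξ
      simp only [h2] at h1
      exact tendsto_nhds_unique h1 tendsto_const_nhds
    · simp [aa_not hξ]
  init j ξ hξ := by
    have h1 := (tendsto_add_atTop_iff_nat 1).2 (h.tends hξ j 0)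
    refine tendsto_nhds_unique h1 ?_
    simp only [it_zero _ j ξ h.hτ.le]
    exact tendsto_const_nhds
  duh j ξ hξ t ht := by
    have h1 := (tendsto_add_atTop_iff_nat 1).2 (h.tends hξ j t)
    have h2 := (h.Du_tends j t ξ).const_sub
      (((Real.exp (-(4 * Real.pi ^ 2 * cl τ t * ‖ξ‖ ^ 2)) : ℝ) : ℂ) * a0 j ξ)
    have h3 := tendsto_nhds_unique h1 h2
    unfold Du at h3
    rw [cl_eq ht] at h3
    exact h3

theorem main (hK : S_KER) (hD : S_DUH) : S_EX := by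
  obtain ⟨C, hC0, hC⟩ := hD
  refine ⟨12, by norm_num, fun K hK0 => ?_⟩
  set d : ℝ := Real.sqrt (3 * K) with hd
  have hd0 : 0 < d := Real.sqrt_pos.2 (by positivity)
  have hd2 : d ^ 2 = 3 * K := Real.sq_sqrt (by positivity)
  set ε : ℝ := (72 * Real.pi * C * (12 * d))⁻¹ with hε
  have hε0 : 0 < ε := by
    have := Real.pi_pos
    positivity
  obtain ⟨τ, hτ, hτ1, hker⟩ := hK ε hε0
  refine ⟨τ, hτ, hτ1, fun a0 ha => ?_⟩
  set A : E → ℝ := fun ξ => (1 + ‖ξ‖) * ∑ j, ‖a0 j ξ‖ with hA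
  have hsq : ∀ ξ, A ξ ^ 2 ≤ 3 * ((1 + ‖ξ‖) ^ 2 * ∑ j, ‖a0 j ξ‖ ^ 2) := fun ξ => by
    have h1 : (∑ j, ‖a0 j ξ‖) ^ 2 ≤ 3 * ∑ j, ‖a0 j ξ‖ ^ 2 := by
      have := sq_sum_le_card_mul_sum_sq (s := (Finset.univ : Finset (Fin 3))) (f := fun j => ‖a0 j ξ‖)
      simpa using this
    have h2 : A ξ ^ 2 = (1 + ‖ξ‖) ^ 2 * (∑ j, ‖a0 j ξ‖) ^ 2 := by simp only [hA]; ring
    rw [h2]
    calc _ ≤ (1 + ‖ξ‖) ^ 2 * (3 * ∑ j, ‖a0 j ξ‖ ^ 2) := mul_le_mul_of_nonneg_left h1 (by positivity)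
      _ = _ := by ring
  have hAm : Measurable A := by
    have h1 : Measurable fun ξ => ∑ j, ‖a0 j ξ‖ :=
      Finset.measurable_sum _ fun j _ => (ha.meas j).norm
    exact (measurable_const.add measurable_norm).mul h1
  have hAe : El A d := by
    refine ⟨⟨hAm, fun ξ => by positivity, ?_⟩, hd0, ?_⟩
    · refine (ha.int.const_mul 3).mono' (hAm.pow_const 2).aestronglyMeasurable
        (Eventually.of_forall fun ξ => ?_)
      rw [Real.norm_eq_abs, abs_of_nonneg (sq_nonneg _)]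
      exact hsq ξ
    · calc ∫ ξ, A ξ ^ 2 ≤ ∫ ξ, 3 * ((1 + ‖ξ‖) ^ 2 * ∑ j, ‖a0 j ξ‖ ^ 2) :=
            integral_mono_of_nonneg (Eventually.of_forall fun ξ => sq_nonneg _)
              (ha.int.const_mul 3) (Eventually.of_forall hsq)
        _ = 3 * ∫ ξ, (1 + ‖ξ‖) ^ 2 * ∑ j, ‖a0 j ξ‖ ^ 2 := integral_const_mul _ _
        _ ≤ 3 * K := mul_le_mul_of_nonneg_left ha.size (by norm_num)
        _ = d ^ 2 := hd2.symm
  have ctx : Ctx C ε τ d A a0 :=
    { hC := hC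
      hC0 := hC0
      hK := hker
      hε := hε0
      hτ := hτ
      hA := hAe
      hs := by
        rw [hε]
        have := Real.pi_pos
        apply le_of_eq
        field_simp
        norm_num
      hm := ha.meas
      hA' := fun j ξ => by
        refine mul_le_mul_of_nonneg_left ?_ (by positivity)
        exact Finset.single_le_sum (f := fun j => ‖a0 j ξ‖) (fun i _ => norm_nonneg _)
          (Finset.mem_univ j)
      herm := ha.herm
      div := ha.divfree }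
  refine ⟨aa C τ A a0, FF (DD C τ A), MM (DD C τ A), ctx.ex, ?_⟩
  refine (MM_le ctx.el).trans (le_of_eq ?_)
  rw [hd2]; ring

end Pool.Agent.Q209.LH
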